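import Pool.Agent.H46.ST.Defs

open Set Filter Cardinal Topology

namespace H46.ST

lemma bNum_set_nonempty : {κ | ∃ F : Set (ℕ → ℕ), #F = κ ∧ ∀ g : ℕ → ℕ, ∃ f ∈ F,
    ¬ ∀ᶠ n in atTop, f n ≤ g n}.Nonempty := by
  refine ⟨_, Set.univ, rfl, fun g => ⟨fun n => g n + 1, Set.mem_univ _, ?_⟩⟩
  intro h
  obtain ⟨n, hn⟩ := h.exists
  have hn' : g n + 1 ≤ g n := hn
  omega

lemma exists_unbounded : ∃ F : Set (ℕ → ℕ), #F = bNum ∧ ∀ g : ℕ → ℕ, ∃ f ∈ F,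
    ¬ ∀ᶠ n in atTop, f n ≤ g n := csInf_mem bNum_set_nonempty

lemma bounded_of_lt {F : Set (ℕ → ℕ)} (h : #F < bNum) :
    ∃ g : ℕ → ℕ, ∀ f ∈ F, ∀ᶠ n in atTop, f n ≤ g n := by
  by_contra hc
  push Not at hc
  have : bNum ≤ #F := csInf_le' ⟨F, rfl, fun g => by
    obtain ⟨f, hf, hg⟩ := hc g
    exact ⟨f, hf, by rw [not_eventually]; simpa [not_le] using hg⟩⟩
  exact absurd this (not_le.2 h)

lemma bounded_of_lt_index {ι : Type} (f : ι → ℕ → ℕ) (h : #ι < bNum) :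
    ∃ g : ℕ → ℕ, ∀ i, ∀ᶠ n in atTop, f i n ≤ g n := by
  obtain ⟨g, hg⟩ := bounded_of_lt (F := Set.range f) (lt_of_le_of_lt mk_range_le h)
  exact ⟨g, fun i => hg _ ⟨i, rfl⟩⟩

lemma aleph0_lt_bNum : ℵ₀ < bNum := by
  by_contra hc
  rw [not_lt] at hc
  obtain ⟨F, hF, hu⟩ := exists_unbounded
  have hc' : F.Countable := by
    rw [← Cardinal.le_aleph0_iff_set_countable, hF]; exact hc
  have hne : F.Nonempty := by
    obtain ⟨f, hf, _⟩ := hu (fun _ => 0)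
    exact ⟨f, hf⟩
  obtain ⟨e, rfl⟩ := hc'.exists_eq_range hne
  obtain ⟨f, ⟨k, rfl⟩, hf⟩ := hu (fun n => ∑ i ∈ Finset.range (n + 1), e i n)
  apply hf
  filter_upwards [eventually_ge_atTop k] with n hn
  exact Finset.single_le_sum (f := fun i => e i n) (fun i _ => Nat.zero_le _)
    (Finset.mem_range.2 (by omega))

lemma mk_Iio_ord_lt {c : Cardinal.{0}} (i : c.ord.ToType) : #(Set.Iio i) < c := by
  simpa using Cardinal.mk_Iio_lt i

lemma mk_Iic_ord_lt {c : Cardinal.{0}} (hc : ℵ₀ ≤ c) (i : c.ord.ToType) : #(Set.Iic i) < c := by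
  simpa using Cardinal.mk_Iic_lt i (by simp) (by simpa using hc)

lemma bNum_isRegular : bNum.IsRegular := by
  refine ⟨aleph0_lt_bNum.le, ?_⟩
  rw [← Ordinal.cof_toType, Order.le_cof_iff]
  intro S hS
  by_contra hc
  rw [not_le] at hc
  obtain ⟨F, hF, hu⟩ := exists_unbounded
  obtain ⟨e⟩ : Nonempty (F ≃ bNum.ord.ToType) := by
    rw [← Cardinal.eq, hF, Cardinal.mk_ord_toType]
  -- initial segments are bounded
  have hs : ∀ s : bNum.ord.ToType, ∃ g : ℕ → ℕ, ∀ f : F, e f ≤ s → ∀ᶠ n in atTop, f.1 n ≤ g n := by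
    intro s
    have hcard : #{f : F // e f ≤ s} < bNum := by
      have h1 : #{f : F // e f ≤ s} ≤ #(Set.Iic s) := by
        refine Cardinal.mk_le_of_injective (f := fun f => ⟨e f.1, f.2⟩) ?_
        intro a b hab
        exact Subtype.ext (e.injective (congrArg Subtype.val hab))
      have h2 : #(Set.Iic s) < bNum := mk_Iic_ord_lt aleph0_lt_bNum.le s
      exact lt_of_le_of_lt h1 h2
    obtain ⟨g, hg⟩ := bounded_of_lt_index (fun f : {f : F // e f ≤ s} => f.1.1) hcard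
    exact ⟨g, fun f hf => hg ⟨f, hf⟩⟩
  choose G hG using hs
  obtain ⟨g, hg⟩ := bounded_of_lt_index (fun s : S => G s.1) hc
  obtain ⟨f, hf, hfg⟩ := hu g
  apply hfg
  obtain ⟨s, hs, hfs⟩ := hS (e ⟨f, hf⟩)
  filter_upwards [hG s ⟨f, hf⟩ hfs, hg ⟨s, hs⟩] with n h1 h2
  exact h1.trans h2

end H46.ST
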