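import Pool.Agent.H46.ST.Bounding

open Set Filter Cardinal Topology

namespace H46.ST

/-- `z` contains infinitely many of the intervals `[n, g n]`. -/
def Bad (z : Set ℕ) (g : ℕ → ℕ) : Prop := ∃ᶠ n in atTop, ∀ k, n ≤ k → k ≤ g n → k ∈ z

variable {Y : Type}

/-- bounded subfamilies -/
def Bdd (z : Y → Set ℕ) (T : Set Y) : Prop := ∃ g : ℕ → ℕ, ∀ x ∈ T, ¬ Bad (z x) g

lemma Bdd.mono {z : Y → Set ℕ} {T T' : Set Y} (h : Bdd z T) (hT : T' ⊆ T) : Bdd z T' := by
  obtain ⟨g, hg⟩ := h
  exact ⟨g, fun x hx => hg x (hT hx)⟩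

lemma Bad.anti {z : Set ℕ} {g g' : ℕ → ℕ} (h : Bad z g') (hg : ∀ᶠ n in atTop, g n ≤ g' n) :
    Bad z g := by
  refine (h.and_eventually hg).mono ?_
  rintro n ⟨h1, h2⟩ k hk hk'
  exact h1 k hk (hk'.trans h2)

lemma bdd_iUnion {z : Y → Set ℕ} {ι : Type} (hι : #ι < bNum) (T : ι → Set Y)
    (hT : ∀ i, Bdd z (T i)) : Bdd z (⋃ i, T i) := by
  choose g hg using hT
  obtain ⟨G, hG⟩ := bounded_of_lt_index g hι
  refine ⟨G, ?_⟩
  intro x hx hbad
  obtain ⟨i, hi⟩ := Set.mem_iUnion.1 hx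
  exact hg i x hi (hbad.anti (hG i))

lemma bdd_union {z : Y → Set ℕ} {T T' : Set Y} (h : Bdd z T) (h' : Bdd z T') :
    Bdd z (T ∪ T') := by
  have h2 : #Bool < bNum := by
    refine lt_of_lt_of_le ?_ aleph0_lt_bNum.le
    exact Cardinal.mk_lt_aleph0
  have h3 := bdd_iUnion (z := z) h2 (fun b => if b then T else T') (by
    intro b; cases b <;> simp [h, h'])
  refine h3.mono ?_
  rintro x (hx | hx)
  · exact Set.mem_iUnion.2 ⟨true, by simpa using hx⟩
  · exact Set.mem_iUnion.2 ⟨false, by simpa using hx⟩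

/-- points whose trace is coinfinite -/
def Good (z : Y → Set ℕ) : Set Y := {x | ¬ AlmostSub Set.univ (z x)}

lemma bdd_singleton {z : Y → Set ℕ} {x : Y} (hx : x ∈ Good z) : Bdd z {x} := by
  have hinf : (z x)ᶜ.Infinite := by
    intro hfin
    apply hx
    show (Set.univ \ z x).Finite
    rwa [← Set.compl_eq_univ_sdiff]
  have h1 : ∀ n : ℕ, ∃ k, n ≤ k ∧ k ∉ z x := by
    intro n
    obtain ⟨k, hk, hnk⟩ := hinf.exists_gt n
    exact ⟨k, hnk.le, hk⟩
  choose g hg using h1
  refine ⟨g, ?_⟩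
  rintro y rfl hbad
  obtain ⟨n, hn⟩ := hbad.exists
  exact (hg n).2 (hn (g n) (hg n).1 le_rfl)

lemma bdd_of_card {z : Y → Set ℕ} {T : Set Y} (hT : T ⊆ Good z) (hc : #T < bNum) : Bdd z T := by
  have := bdd_iUnion (z := z) hc (fun t : T => {t.1}) (fun t => bdd_singleton (hT t.2))
  refine this.mono ?_
  intro x hx
  exact Set.mem_iUnion.2 ⟨⟨x, hx⟩, rfl⟩

/-- the family of sets almost contained in a trace of a point of `T` -/
def Under (z : Y → Set ℕ) (T : Set Y) : Set (Set ℕ) :=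
  {A | A.Infinite ∧ ∃ x ∈ T, AlmostSub A (z x)}

lemma AlmostSub.trans {A B C : Set ℕ} (h : AlmostSub A B) (h' : AlmostSub B C) :
    AlmostSub A C := by
  refine (h.union h').subset ?_
  rintro n ⟨h1, h2⟩
  by_cases hB : n ∈ B
  · exact Or.inr ⟨hB, h2⟩
  · exact Or.inl ⟨h1, hB⟩

lemma groupwiseDense_under {z : Y → Set ℕ} {T : Set Y} (hT : ¬ Bdd z T) :
    GroupwiseDense (Under z T) := by
  refine ⟨fun a ha => ha.1, ?_, ?_⟩
  · rintro a ⟨_, x, hx, hax⟩ b hb hba
    exact ⟨hb, x, hx, hba.trans hax⟩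
  · intro h hmono _
    have h1 : ∃ x ∈ T, Bad (z x) (fun n => h (n + 1)) := by
      by_contra hc
      push Not at hc
      exact hT ⟨_, hc⟩
    obtain ⟨x, hx, hbad⟩ := h1
    have hI : {n | ∀ k, n ≤ k → k ≤ h (n + 1) → k ∈ z x}.Infinite :=
      Nat.frequently_atTop_iff_infinite.1 hbad
    refine ⟨_, hI, ?_, x, hx, ?_⟩
    · have h2 : (h '' {n | ∀ k, n ≤ k → k ≤ h (n + 1) → k ∈ z x}).Infinite :=
        hI.image hmono.injective.injOn
      refine h2.mono ?_
      rintro _ ⟨n, hn, rfl⟩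
      exact Set.mem_biUnion hn ⟨le_rfl, hmono (Nat.lt_succ_self n)⟩
    · have h2 : (⋃ i ∈ {n | ∀ k, n ≤ k → k ≤ h (n + 1) → k ∈ z x},
          Set.Ico (h i) (h (i + 1))) \ z x = ∅ := by
        rw [Set.sdiff_eq_empty]
        intro k hk
        obtain ⟨i, hi, hk1, hk2⟩ := Set.mem_iUnion₂.1 hk
        exact hi k ((hmono.id_le i).trans hk1) hk2.le
      show ((⋃ i ∈ {n | ∀ k, n ≤ k → k ≤ h (n + 1) → k ∈ z x},
          Set.Ico (h i) (h (i + 1))) \ z x).Finite
      rw [h2]
      exact Set.finite_empty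

lemma common {z : Y → Set ℕ} (hbg : bNum < gNum) {ι : Type} (hι : #ι ≤ bNum) (T : ι → Set Y)
    (hT : ∀ i, ¬ Bdd z (T i)) :
    ∃ A : Set ℕ, A.Infinite ∧ ∀ i, ∃ x ∈ T i, AlmostSub A (z x) := by
  by_contra hc
  push Not at hc
  have h1 : gNum ≤ #(Set.range (fun i => Under z (T i))) := by
    apply csInf_le'
    refine ⟨_, rfl, ?_, ?_⟩
    · rintro _ ⟨i, rfl⟩
      exact groupwiseDense_under (hT i)
    · intro A hA
      obtain ⟨i, hi⟩ := hc A hA
      refine ⟨_, ⟨i, rfl⟩, ?_⟩
      rintro ⟨_, x, hx, hx'⟩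
      exact hi x hx hx'
  have h2 : #(Set.range (fun i => Under z (T i))) ≤ bNum := mk_range_le.trans hι
  exact absurd (h1.trans h2) (not_le.2 hbg)

/-- The combinatorial core. -/
theorem core (hbg : bNum < gNum) (hY : #Y ≤ Order.succ bNum) (z : Y → Set ℕ)
    (hz : ∀ A : Set ℕ, A.Infinite → #{x | AlmostSub A (z x)} < bNum) :
    ∃ g : ℕ → ℕ, #{x | Bad (z x) g} < bNum := by
  classical
  by_contra hcon
  push Not at hcon
  have hreg := bNum_isRegular
  -- the good part is unbounded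
  have hgood : ¬ Bdd z (Good z) := by
    rintro ⟨g, hg⟩
    have h1 : {x | Bad (z x) g} ⊆ {x | AlmostSub Set.univ (z x)} := by
      intro x hx
      by_contra hx'
      exact hg x hx' hx
    have h2 := lt_of_le_of_lt (Cardinal.mk_le_mk_of_subset h1) (hz Set.univ Set.infinite_univ)
    exact absurd (hcon g) (not_le.2 h2)
  set L := bNum.ord.ToType with hL
  have hLc : #L = bNum := Cardinal.mk_ord_toType _
  by_cases hcase : ∃ B : L → Set Y, (∀ γ, Bdd z (B γ)) ∧ ¬ Bdd z (⋃ γ, B γ)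
  · -- Case 1: an unbounded union of `𝔟` many bounded sets
    obtain ⟨B, hB, hBu⟩ := hcase
    set T : L → Set Y := fun γ => (⋃ δ, B δ) \ ⋃ δ : Set.Iio γ, B δ.1 with hT
    have hTu : ∀ γ, ¬ Bdd z (T γ) := by
      intro γ hb
      apply hBu
      have h1 : Bdd z (⋃ δ : Set.Iio γ, B δ.1) :=
        bdd_iUnion (mk_Iio_ord_lt γ) _ (fun δ => hB δ.1)
      refine (bdd_union hb h1).mono ?_
      intro x hx
      by_cases hx' : x ∈ ⋃ δ : Set.Iio γ, B δ.1
      · exact Or.inr hx'
      · exact Or.inl ⟨hx, hx'⟩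
    obtain ⟨A, hA, hAx⟩ := common hbg hLc.le T hTu
    have hP := hz A hA
    choose x hx hxA using hAx
    -- every point of P lies in some B
    have hcov : (Set.univ : Set L) ⊆ ⋃ p : {y | AlmostSub A (z y)}, {γ | x γ = p.1} := by
      intro γ _
      exact Set.mem_iUnion.2 ⟨⟨x γ, hxA γ⟩, rfl⟩
    have hfib : ∀ p : {y | AlmostSub A (z y)}, #{γ | x γ = p.1} < bNum := by
      intro p
      by_cases hp : ∃ γ, x γ = p.1
      · obtain ⟨γ₀, hγ₀⟩ := hp
        have h1 : p.1 ∈ ⋃ δ, B δ := by rw [← hγ₀]; exact (hx γ₀).1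
        obtain ⟨δ, hδ⟩ := Set.mem_iUnion.1 h1
        have h2 : {γ | x γ = p.1} ⊆ Set.Iic δ := by
          intro γ hγ
          by_contra hlt
          rw [Set.mem_Iic, not_le] at hlt
          apply (hx γ).2
          rw [Set.mem_ofPred_eq] at hγ
          rw [hγ]
          exact Set.mem_iUnion.2 ⟨⟨δ, hlt⟩, hδ⟩
        refine lt_of_le_of_lt (Cardinal.mk_le_mk_of_subset h2) ?_
        exact mk_Iic_ord_lt hreg.aleph0_le δ
      · have h2 : {γ | x γ = p.1} = ∅ := by
          ext γ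
          simp only [Set.mem_ofPred_eq, Set.mem_empty_iff_false, iff_false]
          exact fun h => hp ⟨γ, h⟩
        rw [h2]
        simpa using hreg.pos
    have h3 := (Cardinal.card_iUnion_lt_iff_forall_of_isRegular hreg hP).2 hfib
    have h4 := lt_of_le_of_lt (Cardinal.mk_le_mk_of_subset hcov) h3
    rw [Cardinal.mk_univ, hLc] at h4
    exact lt_irrefl _ h4
  · -- Case 2: the bounded sets are closed under unions of size `𝔟`
    push Not at hcase
    have hclosed : ∀ {ι : Type} (_ : #ι ≤ bNum) (B : ι → Set Y), (∀ i, Bdd z (B i)) →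
        Bdd z (⋃ i, B i) := by
      intro ι hι B hB
      rw [← hLc] at hι
      obtain ⟨f⟩ := hι
      have h1 := hcase (fun γ => if h : ∃ i, f i = γ then B h.choose else ∅) (by
        intro γ
        by_cases h : ∃ i, f i = γ
        · simp only [h, dif_pos]; exact hB _
        · simp only [h, dif_neg, not_false_iff]
          exact ⟨fun _ => 0, fun x hx => absurd hx (Set.notMem_empty x)⟩)
      refine h1.mono ?_
      intro x hx
      obtain ⟨i, hi⟩ := Set.mem_iUnion.1 hx
      refine Set.mem_iUnion.2 ⟨f i, ?_⟩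
      have h : ∃ j, f j = f i := ⟨i, rfl⟩
      simp only [h, dif_pos]
      have : h.choose = i := f.injective h.choose_spec
      rw [this]
      exact hi
    have hsmall : ∀ T : Set Y, T ⊆ Good z → #T ≤ bNum → Bdd z T := by
      intro T hT hc
      refine (hclosed hc (fun t : T => {t.1}) (fun t => bdd_singleton (hT t.2))).mono ?_
      intro x hx
      exact Set.mem_iUnion.2 ⟨⟨x, hx⟩, rfl⟩
    -- an embedding into the cardinal successor of `𝔟`
    set M := (Order.succ bNum).ord.ToType with hM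
    have hMc : #M = Order.succ bNum := Cardinal.mk_ord_toType _
    obtain ⟨e⟩ : Nonempty (Good z ↪ M) := by
      rw [← Cardinal.le_def, hMc]
      exact (Cardinal.mk_set_le _).trans hY
    have hIic : ∀ m : M, #(Set.Iic m) ≤ bNum := by
      intro m
      rw [← Order.lt_succ_iff]
      exact mk_Iic_ord_lt (hreg.aleph0_le.trans (Order.le_succ _)) m
    have hIio : ∀ ξ : Good z, #{α : Good z // e α < e ξ} ≤ bNum := by
      intro ξ
      refine le_trans ?_ (hIic (e ξ))
      refine Cardinal.mk_le_of_injective (f := fun α => ⟨e α.1, α.2.le⟩) ?_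
      intro a b hab
      exact Subtype.ext (e.injective (congrArg Subtype.val hab))
    have hf : ∀ ξ : Good z, Nonempty ({α : Good z // e α < e ξ} ↪ L) := by
      intro ξ
      rw [← Cardinal.le_def, hLc]
      exact hIio ξ
    have f : ∀ ξ : Good z, {α : Good z // e α < e ξ} ↪ L := fun ξ => (hf ξ).some
    set W : Good z → L → Set Y := fun α η =>
      {y | ∃ ξ : Good z, ξ.1 = y ∧ ∃ h : e α < e ξ, f ξ ⟨α, h⟩ = η} with hW
    have hη : ∀ α : Good z, ∃ η : L, ¬ Bdd z (W α η) := by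
      intro α
      by_contra hc
      push Not at hc
      have h1 : Bdd z (⋃ η, W α η) := hclosed hLc.le _ hc
      have h2 : Bdd z (Subtype.val '' {ξ : Good z | e ξ ≤ e α}) := by
        apply hsmall
        · rintro _ ⟨ξ, _, rfl⟩; exact ξ.2
        · refine Cardinal.mk_image_le.trans ?_
          refine le_trans ?_ (hIic (e α))
          refine Cardinal.mk_le_of_injective (f := fun ξ => ⟨e ξ.1, ξ.2⟩) ?_
          intro a b hab
          exact Subtype.ext (e.injective (congrArg Subtype.val hab))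
      apply hgood
      refine (bdd_union h1 h2).mono ?_
      intro y hy
      by_cases hlt : e ⟨y, hy⟩ ≤ e α
      · exact Or.inr ⟨⟨y, hy⟩, hlt, rfl⟩
      · rw [not_le] at hlt
        exact Or.inl (Set.mem_iUnion.2 ⟨f ⟨y, hy⟩ ⟨α, hlt⟩, ⟨y, hy⟩, rfl, hlt, rfl⟩)
    choose η hηu using hη
    have hpig : ∃ η₀ : L, bNum ≤ #{α : Good z // η α = η₀} := by
      by_contra hc
      push Not at hc
      apply hgood
      apply hsmall _ (subset_refl _)
      rw [Cardinal.mk_congr (Equiv.sigmaFiberEquiv η).symm, Cardinal.mk_sigma]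
      calc Cardinal.sum (fun l : L => #{α : Good z // η α = l})
          ≤ Cardinal.sum (fun _ : L => bNum) := Cardinal.sum_le_sum _ _ (fun l => (hc l).le)
        _ = bNum := by
          rw [Cardinal.sum_const', hLc, Cardinal.mul_eq_self hreg.aleph0_le]
    obtain ⟨η₀, hη₀⟩ := hpig
    rw [← hLc] at hη₀
    obtain ⟨s⟩ := hη₀
    obtain ⟨A, hA, hAx⟩ := common hbg hLc.le (fun l => W (s l).1 η₀) (fun l => by
      have := hηu (s l).1
      rwa [(s l).2] at this)
    have hP := hz A hA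
    choose x hx hxA using hAx
    have hinj : Function.Injective (fun l => (⟨x l, hxA l⟩ : {y | AlmostSub A (z y)})) := by
      intro l l' hll
      have hxx : x l = x l' := congrArg Subtype.val hll
      obtain ⟨ξ, h1, h2, h3⟩ := hx l
      obtain ⟨ξ', h1', h2', h3'⟩ := hx l'
      have hξ : ξ = ξ' := Subtype.ext (h1.trans (hxx.trans h1'.symm))
      subst hξ
      have h4 := (f ξ).injective (h3.trans h3'.symm)
      have h5 : (s l).1 = (s l').1 :=
        congrArg (fun w : {α : Good z // e α < e ξ} => w.1) h4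
      exact s.injective (Subtype.ext h5)
    have := Cardinal.mk_le_of_injective hinj
    rw [hLc] at this
    exact absurd this (not_le.2 hP)

end H46.ST
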