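import Mathlib

/-!
# Definitions for MP_0d4624_gt: the semifilter trichotomy and `𝔟`-concentrated sets
-/

open Set Filter Cardinal Topology

namespace H46.ST

/-- `A ⊆* B`: the set `A \ B` is finite. -/
def AlmostSub (A B : Set ℕ) : Prop := (A \ B).Finite

/-- A semifilter: a nonempty family of infinite subsets of `ℕ` which is closed under taking
(infinite) almost supersets. -/
structure IsSemifilter (S : Set (Set ℕ)) : Prop where
  nonempty : S.Nonempty
  infinite : ∀ a ∈ S, a.Infinite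
  up : ∀ a ∈ S, ∀ b : Set ℕ, b.Infinite → AlmostSub a b → b ∈ S

/-- `x/h = {n : x ∩ [h(n), h(n+1)) ≠ ∅}`. -/
def quot (h : ℕ → ℕ) (x : Set ℕ) : Set ℕ := {n | (x ∩ Set.Ico (h n) (h (n + 1))).Nonempty}

/-- `S/h = {x/h : x ∈ S}`. -/
def quotFam (h : ℕ → ℕ) (S : Set (Set ℕ)) : Set (Set ℕ) := quot h '' S

/-- The semifilter trichotomy (ST). An infinite set `h ∈ [ω]^∞` is given by its increasing
enumeration, a strictly increasing function `h : ℕ → ℕ`. The three alternatives are: `S/h` is the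
Fréchet filter, `S/h` is an ultrafilter, `S/h` is the family of all infinite sets. -/
def SemifilterTrichotomy : Prop :=
  ∀ S : Set (Set ℕ), IsSemifilter S → ∃ h : ℕ → ℕ, StrictMono h ∧
    (quotFam h S = {A | Aᶜ.Finite} ∨
      (∃ U : Ultrafilter ℕ, quotFam h S = {A | A ∈ U}) ∨
      quotFam h S = {A | A.Infinite})

/-- The bounding number `𝔟`: the least size of a family of functions which is unbounded with
respect to eventual domination. -/
noncomputable def bNum : Cardinal.{0} :=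
  sInf {κ | ∃ F : Set (ℕ → ℕ), #F = κ ∧ ∀ g : ℕ → ℕ, ∃ f ∈ F, ¬ ∀ᶠ n in atTop, f n ≤ g n}

/-- A family `G` of infinite subsets of `ℕ` is groupwise dense if it is closed under taking
(infinite) almost subsets and for every partition of `ℕ` into the finite intervals
`[h(n), h(n+1))` (`h(0) = 0`, `h` strictly increasing) the union of some infinite family of
intervals of the partition belongs to `G`. -/
structure GroupwiseDense (G : Set (Set ℕ)) : Prop where
  infinite : ∀ a ∈ G, a.Infinite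
  down : ∀ a ∈ G, ∀ b : Set ℕ, b.Infinite → AlmostSub b a → b ∈ G
  dense : ∀ h : ℕ → ℕ, StrictMono h → h 0 = 0 →
    ∃ I : Set ℕ, I.Infinite ∧ (⋃ i ∈ I, Set.Ico (h i) (h (i + 1))) ∈ G

/-- The groupwise density number `𝔤`: the least number of groupwise dense families with empty
intersection. -/
noncomputable def gNum : Cardinal.{0} :=
  sInf {κ | ∃ 𝒢 : Set (Set (Set ℕ)), #𝒢 = κ ∧ (∀ G ∈ 𝒢, GroupwiseDense G) ∧
    ∀ A : Set ℕ, A.Infinite → ∃ G ∈ 𝒢, A ∉ G}

/-- The ultrafilter number `𝔲`: the least size of a base of a nonprincipal ultrafilter on `ℕ`. -/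
noncomputable def uNum : Cardinal.{0} :=
  sInf {κ | ∃ (U : Ultrafilter ℕ) (B : Set (Set ℕ)), (U : Filter ℕ) ≤ cofinite ∧ #B = κ ∧
    (∀ b ∈ B, b ∈ U) ∧ ∀ a ∈ U, ∃ b ∈ B, b ⊆ a}

/-- A subset `X` of the Cantor space `𝒫(ω) = 2^ω` is `𝔟`-concentrated if there is a countable
`D ⊆ X` such that `|X \ U| < 𝔟` for every open set `U ⊇ D`. -/
def BConcentrated (X : Set (ℕ → Bool)) : Prop :=
  ∃ D : Set (ℕ → Bool), D ⊆ X ∧ D.Countable ∧
    ∀ U : Set (ℕ → Bool), IsOpen U → D ⊆ U → #(X \ U : Set (ℕ → Bool)) < bNum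

/-- A topological space is Hurewicz if for every sequence `(𝒰_n)` of open covers there are finite
`ℱ_n ⊆ 𝒰_n` such that each point lies in `⋃ ℱ_n` for all but finitely many `n`. -/
def Hurewicz (Y : Type) [TopologicalSpace Y] : Prop :=
  ∀ 𝒰 : ℕ → Set (Set Y), (∀ n, (∀ U ∈ 𝒰 n, IsOpen U) ∧ ⋃₀ 𝒰 n = Set.univ) →
    ∃ ℱ : ℕ → Set (Set Y), (∀ n, ℱ n ⊆ 𝒰 n ∧ (ℱ n).Finite) ∧
      ∀ y : Y, ∀ᶠ n in atTop, y ∈ ⋃₀ ℱ n

end H46.ST
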