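import Pool.Agent.H46.ST.Core

open Set Filter Cardinal Topology

namespace H46.ST

/-- Fewer than `𝔟` points of a second countable space can be treated at once. -/
lemma small_hurewicz {Y : Type} [TopologicalSpace Y] [SecondCountableTopology Y]
    (𝒰 : ℕ → Set (Set Y)) (h𝒰 : ∀ n, (∀ U ∈ 𝒰 n, IsOpen U) ∧ ⋃₀ 𝒰 n = Set.univ)
    (R : Set Y) (hR : #R < bNum) :
    ∃ ℱ : ℕ → Set (Set Y), (∀ n, ℱ n ⊆ 𝒰 n ∧ (ℱ n).Finite) ∧
      ∀ y ∈ R, ∀ᶠ n in atTop, y ∈ ⋃₀ ℱ n := by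
  classical
  rcases isEmpty_or_nonempty Y with hY | ⟨⟨y₀⟩⟩
  · exact ⟨fun _ => ∅, fun n => ⟨Set.empty_subset _, Set.finite_empty⟩, fun y => (hY.false y).elim⟩
  have h1 : ∀ n, ∃ e : ℕ → Set Y, Set.range e ⊆ 𝒰 n ∧ ∀ y, ∃ j, y ∈ e j := by
    intro n
    obtain ⟨T, hTc, hTs, hTu⟩ :=
      TopologicalSpace.isOpen_sUnion_countable (𝒰 n) (h𝒰 n).1
    rw [(h𝒰 n).2] at hTu
    have hne : T.Nonempty := by
      have : y₀ ∈ ⋃₀ T := by rw [hTu]; trivial
      obtain ⟨t, ht, _⟩ := this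
      exact ⟨t, ht⟩
    obtain ⟨e, he⟩ := hTc.exists_eq_range hne
    refine ⟨e, he ▸ hTs, ?_⟩
    intro y
    have : y ∈ ⋃₀ T := by rw [hTu]; trivial
    obtain ⟨t, ht, hyt⟩ := this
    rw [he] at ht
    obtain ⟨j, rfl⟩ := ht
    exact ⟨j, hyt⟩
  choose e he hcov using h1
  choose f hf using hcov
  obtain ⟨g, hg⟩ := bounded_of_lt_index (fun (y : R) n => f n y.1) hR
  refine ⟨fun n => e n '' {j | j ≤ g n}, ?_, ?_⟩
  · intro n
    refine ⟨?_, (Set.finite_le_nat _).image _⟩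
    rintro _ ⟨j, _, rfl⟩
    exact he n ⟨j, rfl⟩
  · intro y hy
    filter_upwards [hg ⟨y, hy⟩] with n hn
    exact ⟨e n (f n y), ⟨f n y, hn, rfl⟩, hf n y⟩

/-- If `𝔟 < 𝔤`, then every `𝔟`-concentrated set of size at most `𝔟⁺` is Hurewicz. -/
theorem hurewicz_of_card (hbg : bNum < gNum) (X : Set (ℕ → Bool))
    (hcard : #X ≤ Order.succ bNum) (hX : BConcentrated X) : Hurewicz X := by
  classical
  obtain ⟨D, hDX, hDc, hD⟩ := hX
  intro 𝒰 h𝒰
  have hreg := bNum_isRegular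
  rcases D.eq_empty_or_nonempty with rfl | hDne
  · -- `X` is small
    have h1 := hD ∅ isOpen_empty (Set.empty_subset _)
    rw [Set.sdiff_empty] at h1
    obtain ⟨ℱ, h2, h3⟩ := small_hurewicz 𝒰 h𝒰 Set.univ (by rw [Cardinal.mk_univ]; exact h1)
    exact ⟨ℱ, h2, fun y => h3 y trivial⟩
  obtain ⟨d₀, rfl⟩ := hDc.exists_eq_range hDne
  set d : ℕ → X := fun m => ⟨d₀ m, hDX ⟨m, rfl⟩⟩ with hd
  -- choose members of the covers
  have h1 : ∀ (n : ℕ) (y : X), ∃ U ∈ 𝒰 n, y ∈ U := by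
    intro n y
    have : y ∈ ⋃₀ 𝒰 n := by rw [(h𝒰 n).2]; trivial
    exact this
  choose U hU hyU using h1
  set V : ℕ → Set X := fun k => ⋃ m ∈ Set.Iic k, ⋂ n ∈ Set.Iic k, U n (d m) with hV
  have hVo : ∀ k, IsOpen (V k) := by
    intro k
    apply isOpen_biUnion
    intro m _
    exact (Set.finite_Iic k).isOpen_biInter (fun n _ => (h𝒰 n).1 _ (hU n (d m)))
  have hVd : ∀ k m, m ≤ k → d m ∈ V k := by
    intro k m hmk
    refine Set.mem_biUnion (show m ∈ Set.Iic k from hmk) ?_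
    exact Set.mem_iInter₂.2 (fun n _ => hyU n (d m))
  set z : X → Set ℕ := fun y => {k | y ∉ V k} with hz
  have hzc : ∀ A : Set ℕ, A.Infinite → #{y | AlmostSub A (z y)} < bNum := by
    intro A hA
    have hsub : {y | AlmostSub A (z y)} ⊆ ⋃ n : ℕ, {y | ∀ k ∈ A, n ≤ k → y ∉ V k} := by
      intro y hy
      obtain ⟨n, hn⟩ := (show (A \ z y).Finite from hy).bddAbove
      refine Set.mem_iUnion.2 ⟨n + 1, ?_⟩
      intro k hk hnk
      by_contra hyk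
      have : k ∈ A \ z y := ⟨hk, fun h => h hyk⟩
      have := hn this
      omega
    refine lt_of_le_of_lt (Cardinal.mk_le_mk_of_subset hsub) ?_
    rw [Cardinal.card_iUnion_lt_iff_forall_of_isRegular hreg
      (by rw [Cardinal.mk_nat]; exact aleph0_lt_bNum)]
    intro n
    have hWo : IsOpen (⋃ k ∈ {k | k ∈ A ∧ n ≤ k}, V k) := isOpen_biUnion (fun k _ => hVo k)
    obtain ⟨W, hW, hWe⟩ := isOpen_induced_iff.1 hWo
    have hDW : Set.range d₀ ⊆ W := by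
      rintro _ ⟨m, rfl⟩
      obtain ⟨k, hk, hmk⟩ := hA.exists_gt (max m n)
      have h2 : d m ∈ ⋃ k ∈ {k | k ∈ A ∧ n ≤ k}, V k := by
        refine Set.mem_biUnion (show k ∈ {k | k ∈ A ∧ n ≤ k} from ⟨hk, ?_⟩) (hVd k m ?_)
        · exact (le_max_right m n).trans hmk.le
        · exact (le_max_left m n).trans hmk.le
      rw [← hWe] at h2
      exact h2
    have h3 := hD W hW hDW
    refine lt_of_le_of_lt ?_ h3
    refine Cardinal.mk_le_of_injective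
      (f := fun y : {y : X | ∀ k ∈ A, n ≤ k → y ∉ V k} => (⟨y.1.1, y.1.2, ?_⟩ :
        (X \ W : Set (ℕ → Bool)))) ?_
    · intro hyW
      have h4 : y.1 ∈ ⋃ k ∈ {k | k ∈ A ∧ n ≤ k}, V k := by
        rw [← hWe]; exact hyW
      obtain ⟨k, ⟨hk, hnk⟩, hyk⟩ := Set.mem_iUnion₂.1 h4
      exact y.2 k hk hnk hyk
    · intro a b hab
      have : a.1.1 = b.1.1 := congrArg (fun w : (X \ W : Set (ℕ → Bool)) => w.1) hab
      exact Subtype.ext (Subtype.ext this)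
  obtain ⟨g, hg⟩ := core hbg hcard z hzc
  obtain ⟨ℱ, h2, h3⟩ := small_hurewicz 𝒰 h𝒰 _ hg
  refine ⟨fun n => ℱ n ∪ (fun m => U n (d m)) '' {m | m ≤ g n}, ?_, ?_⟩
  · intro n
    refine ⟨Set.union_subset (h2 n).1 ?_, (h2 n).2.union ((Set.finite_le_nat _).image _)⟩
    rintro _ ⟨m, _, rfl⟩
    exact hU n (d m)
  · intro y
    by_cases hy : Bad (z y) g
    · filter_upwards [h3 y hy] with n hn
      obtain ⟨F, hF, hyF⟩ := hn
      exact ⟨F, Or.inl hF, hyF⟩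
    · have hy' : ∀ᶠ n in atTop, ¬ ∀ k, n ≤ k → k ≤ g n → k ∈ z y := by
        have := not_frequently.1 hy
        exact this
      filter_upwards [hy'] with n hn
      push Not at hn
      obtain ⟨k, hnk, hkg, hk⟩ := hn
      have hyk : y ∈ V k := by
        by_contra h
        exact hk h
      obtain ⟨m, hm, hym⟩ := Set.mem_iUnion₂.1 hyk
      exact ⟨U n (d m), Or.inr ⟨m, (show m ≤ k from hm).trans hkg, rfl⟩,
        Set.mem_iInter₂.1 hym n hnk⟩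

end H46.ST
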