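import Pool.Agent.H46.ST.Core

open Set Filter Cardinal Topology

namespace H46.ST

lemma quot_infinite {h : ℕ → ℕ} (hh : StrictMono h) {x : Set ℕ} (hx : x.Infinite) :
    (quot h x).Infinite := by
  intro hfin
  apply hx
  obtain ⟨N, hN⟩ := hfin.bddAbove
  refine (Set.finite_Iio (h (N + 1))).subset ?_
  intro k hk
  rw [Set.mem_Iio]
  by_contra hc
  rw [not_lt] at hc
  -- k lies in some interval with index > N
  have h1 : ∃ i, k < h (i + 1) := ⟨k, lt_of_lt_of_le (Nat.lt_succ_self k) (hh.id_le (k + 1))⟩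
  classical
  have h2 := Nat.find_spec h1
  have h3 : N < Nat.find h1 := by
    by_contra h4
    rw [not_lt] at h4
    have h5 : h (Nat.find h1 + 1) ≤ h (N + 1) := hh.monotone (by omega)
    omega
  have h4 : h (Nat.find h1) ≤ k := by
    have h5 : Nat.find h1 - 1 < Nat.find h1 := by omega
    have h6 := Nat.find_min h1 h5
    rw [not_lt] at h6
    have h7 : Nat.find h1 - 1 + 1 = Nat.find h1 := by omega
    rwa [h7] at h6
  have h5 : Nat.find h1 ∈ quot h x := ⟨k, hk, h4, h2⟩
  have h6 := hN h5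
  omega

lemma quot_almostSub {h : ℕ → ℕ} (hh : StrictMono h) {x b : Set ℕ} (hxb : AlmostSub x b) :
    AlmostSub (quot h x) (quot h b) := by
  classical
  obtain ⟨N, hN⟩ := (show (x \ b).Finite from hxb).bddAbove
  refine (Set.finite_Iic N).subset ?_
  rintro i ⟨⟨k, hk, hk1, hk2⟩, hi⟩
  have h1 : k ∈ x \ b := ⟨hk, fun hkb => hi ⟨k, hkb, hk1, hk2⟩⟩
  have h2 := hN h1
  exact (hh.id_le i).trans (hk1.trans h2)

/-- A family of at most `𝔟` infinite sets which is unbounded in the sense of interval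
partitions. -/
lemma exists_unbounded_sets : ∃ E : Set (Set ℕ), #E ≤ bNum ∧ (∀ x ∈ E, x.Infinite) ∧
    ∀ h : ℕ → ℕ, StrictMono h → ∃ x ∈ E, ∃ᶠ i in atTop, x ∩ Set.Ico (h i) (h (i + 1)) = ∅ := by
  obtain ⟨F, hF, hu⟩ := exists_unbounded
  -- the set of a function
  let a : (ℕ → ℕ) → ℕ → ℕ := fun f => Nat.rec 0 (fun _ m => m + 1 + ∑ j ∈ Finset.range (m + 1), f j)
  have ha0 : ∀ f n, a f (n + 1) = a f n + 1 + ∑ j ∈ Finset.range (a f n + 1), f j :=
    fun f n => rfl
  have hamono : ∀ f, StrictMono (a f) := by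
    intro f
    apply strictMono_nat_of_lt_succ
    intro n
    rw [ha0]; omega
  have hfa : ∀ f n m, m ≤ a f n → f m ≤ a f (n + 1) := by
    intro f n m hm
    rw [ha0]
    have : f m ≤ ∑ j ∈ Finset.range (a f n + 1), f j :=
      Finset.single_le_sum (f := f) (fun i _ => Nat.zero_le _) (Finset.mem_range.2 (by omega))
    omega
  refine ⟨(fun f => Set.range (a f)) '' F, ?_, ?_, ?_⟩
  · exact Cardinal.mk_image_le.trans hF.le
  · rintro _ ⟨f, _, rfl⟩
    exact Set.infinite_range_of_injective (hamono f).injective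
  · intro h hh
    obtain ⟨f, hfF, hf⟩ := hu (fun m => h (h (m + 1) + 1))
    refine ⟨_, ⟨f, hfF, rfl⟩, ?_⟩
    by_contra hc
    rw [not_frequently] at hc
    apply hf
    have hc2 : ∀ᶠ m in atTop, ¬ (Set.range (a f) ∩ Set.Ico (h (h (m + 1))) (h (h (m + 1) + 1)) = ∅) := by
      have htend : Tendsto (fun m => h (m + 1)) atTop atTop :=
        hh.tendsto_atTop.comp (tendsto_add_atTop_nat 1)
      exact htend.eventually hc
    filter_upwards [hc, hc2] with m hm hm2
    obtain ⟨_, ⟨n, rfl⟩, hn1, hn2⟩ := Set.nonempty_iff_ne_empty.2 hm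
    obtain ⟨_, ⟨n', rfl⟩, hn1', hn2'⟩ := Set.nonempty_iff_ne_empty.2 hm2
    have h1 : m ≤ a f n := (hh.id_le m).trans hn1
    have h2 : f m ≤ a f (n + 1) := hfa f n m h1
    have h3 : a f n < a f n' := by
      have := hh.id_le (h (m + 1))
      have h4 : h (m + 1) ≤ h (h (m + 1)) := this
      omega
    have h4 : n < n' := (hamono f).lt_iff_lt.1 h3
    have h5 : a f (n + 1) ≤ a f n' := (hamono f).monotone h4
    omega

/-- An almost disjoint family of size continuum. -/
lemma exists_ad : ∃ a : (ℕ → Bool) → Set ℕ, (∀ r, (a r).Infinite) ∧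
    ∀ r s, r ≠ s → (a r ∩ a s).Finite := by
  let c : (ℕ → Bool) → ℕ → ℕ := fun r n => Encodable.encode ((List.range n).map r)
  have hc : ∀ r s n m, c r n = c s m → n = m ∧ ∀ i < n, r i = s i := by
    intro r s n m h
    have h1 : (List.range n).map r = (List.range m).map s := Encodable.encode_injective h
    have h2 : n = m := by
      have := congrArg List.length h1
      simpa using this
    subst h2
    refine ⟨rfl, ?_⟩
    intro i hi
    have h3 := List.map_inj_left.1 h1 i (List.mem_range.2 hi)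
    exact h3
  refine ⟨fun r => Set.range (c r), ?_, ?_⟩
  · intro r
    apply Set.infinite_range_of_injective
    intro n m h
    exact (hc r r n m h).1
  · intro r s hrs
    obtain ⟨k, hk⟩ := Function.ne_iff.1 hrs
    refine ((Set.finite_Iic k).image (c r)).subset ?_
    rintro _ ⟨⟨n, rfl⟩, ⟨m, hm⟩⟩
    refine ⟨n, ?_, rfl⟩
    rw [Set.mem_Iic]
    by_contra hlt
    rw [not_le] at hlt
    obtain ⟨_, h2⟩ := hc r s n m hm.symm
    exact hk (h2 k hlt)

lemma uNum_le_continuum : uNum ≤ 𝔠 := by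
  have h1 : uNum ≤ #{A : Set ℕ | A ∈ (Filter.hyperfilter ℕ)} := by
    apply csInf_le'
    refine ⟨Filter.hyperfilter ℕ, {A : Set ℕ | A ∈ (Filter.hyperfilter ℕ)},
      Filter.hyperfilter_le_cofinite, rfl, fun b hb => hb, fun a ha => ⟨a, ha, subset_rfl⟩⟩
  refine h1.trans ((Cardinal.mk_set_le _).trans ?_)
  rw [Cardinal.mk_set, Cardinal.mk_nat, Cardinal.two_power_aleph0]

/-- If `𝔟 < 𝔲` then the semifilter trichotomy fails. -/
theorem not_trichotomy (hbu : bNum < uNum) : ¬ SemifilterTrichotomy := by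
  classical
  intro hST
  obtain ⟨E, hE, hEinf, hEu⟩ := exists_unbounded_sets
  have hEne : E.Nonempty := by
    obtain ⟨x, hx, _⟩ := hEu id strictMono_id
    exact ⟨x, hx⟩
  set S : Set (Set ℕ) := {b | b.Infinite ∧ ∃ x ∈ E, AlmostSub x b} with hS
  have hself : ∀ x : Set ℕ, AlmostSub x x := by
    intro x
    show (x \ x).Finite
    rw [Set.sdiff_self]; exact Set.finite_empty
  have hES : ∀ x ∈ E, x ∈ S := fun x hx => ⟨hEinf x hx, x, hx, hself x⟩
  have hsemi : IsSemifilter S := by
    refine ⟨?_, fun a ha => ha.1, ?_⟩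
    · obtain ⟨x, hx⟩ := hEne
      exact ⟨x, hES x hx⟩
    · rintro a ⟨_, x, hx, hxa⟩ b hb hab
      exact ⟨hb, x, hx, hxa.trans hab⟩
  obtain ⟨h, hh, hcase⟩ := hST S hsemi
  rcases hcase with h1 | ⟨U, h2⟩ | h3
  · -- Frechet filter
    obtain ⟨x, hx, hxh⟩ := hEu h hh
    have hq : quot h x ∈ quotFam h S := ⟨x, hES x hx, rfl⟩
    rw [h1] at hq
    have hinf : {i | x ∩ Set.Ico (h i) (h (i + 1)) = ∅}.Infinite :=
      Nat.frequently_atTop_iff_infinite.1 hxh
    apply hinf
    refine (show (quot h x)ᶜ.Finite from hq).subset ?_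
    intro i hi hi'
    have h4 : (x ∩ Set.Ico (h i) (h (i + 1))).Nonempty := hi'
    rw [show x ∩ Set.Ico (h i) (h (i + 1)) = ∅ from hi] at h4
    exact Set.not_nonempty_empty h4
  · -- ultrafilter
    have hinf : ∀ A, A ∈ U → A.Infinite := by
      intro A hA
      have : A ∈ quotFam h S := by rw [h2]; exact hA
      obtain ⟨b, hb, rfl⟩ := this
      exact quot_infinite hh hb.1
    have hcof : (U : Filter ℕ) ≤ cofinite := by
      intro A hA
      rw [Filter.mem_cofinite] at hA
      rcases U.em (· ∈ A) with h4 | h4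
      · exact h4
      · exact absurd hA (hinf _ h4)
    have hle : uNum ≤ #(Set.range (fun p : E × Finset ℕ => quot h p.1.1 \ (p.2 : Set ℕ))) := by
      apply csInf_le'
      refine ⟨U, _, hcof, rfl, ?_, ?_⟩
      · rintro _ ⟨⟨x, F⟩, rfl⟩
        have h4 : quot h x.1 ∈ U := by
          have : quot h x.1 ∈ quotFam h S := ⟨x.1, hES x.1 x.2, rfl⟩
          rw [h2] at this
          exact this
        have h5 : ((F : Set ℕ)ᶜ) ∈ U := hcof (by
          rw [Filter.mem_cofinite, compl_compl]; exact F.finite_toSet)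
        have h6 := U.toFilter.inter_sets h4 h5
        exact h6
      · intro A hA
        have : A ∈ quotFam h S := by rw [h2]; exact hA
        obtain ⟨b, ⟨_, x, hx, hxb⟩, rfl⟩ := this
        have h4 := quot_almostSub hh hxb
        refine ⟨_, ⟨⟨⟨x, hx⟩, (show (quot h x \ quot h b).Finite from h4).toFinset⟩, rfl⟩, ?_⟩
        rintro i ⟨hi1, hi2⟩
        by_contra hi3
        apply hi2
        simp only [Set.Finite.coe_toFinset]
        exact ⟨hi1, hi3⟩
    have hcard : #(Set.range (fun p : E × Finset ℕ => quot h p.1.1 \ (p.2 : Set ℕ))) ≤ bNum := by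
      refine mk_range_le.trans ?_
      rw [Cardinal.mk_prod]
      simp only [Cardinal.lift_id]
      refine (mul_le_mul' hE (show #(Finset ℕ) ≤ ℵ₀ from Cardinal.mk_le_aleph0)).trans ?_
      rw [Cardinal.mul_eq_left bNum_isRegular.aleph0_le bNum_isRegular.aleph0_le
        Cardinal.aleph0_ne_zero]
    exact absurd (hle.trans hcard) (not_le.2 hbu)
  · -- everything
    obtain ⟨a, ha, had⟩ := exists_ad
    have h4 : ∀ r, ∃ x ∈ E, AlmostSub (quot h x) (a r) := by
      intro r
      have : a r ∈ quotFam h S := by rw [h3]; exact ha r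
      obtain ⟨b, ⟨_, x, hx, hxb⟩, hb⟩ := this
      exact ⟨x, hx, hb ▸ quot_almostSub hh hxb⟩
    choose x hx hxa using h4
    have hinj : Function.Injective (fun r => (⟨x r, hx r⟩ : E)) := by
      intro r s hrs
      by_contra hne
      have hxx : x r = x s := congrArg Subtype.val hrs
      have h5 : (quot h (x r)).Infinite := quot_infinite hh (hEinf _ (hx r))
      apply h5
      have h6 := hxa r
      have h7 := hxa s
      rw [← hxx] at h7
      have h8 : quot h (x r) ⊆ (quot h (x r) \ a r) ∪ (quot h (x r) \ a s) ∪ (a r ∩ a s) := by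
        intro i hi
        by_cases hr : i ∈ a r
        · by_cases hs : i ∈ a s
          · exact Or.inr ⟨hr, hs⟩
          · exact Or.inl (Or.inr ⟨hi, hs⟩)
        · exact Or.inl (Or.inl ⟨hi, hr⟩)
      exact ((Set.Finite.union h6 h7).union (had r s hne)).subset h8
    have h5 := Cardinal.mk_le_of_injective hinj
    have h6 : #(ℕ → Bool) = 𝔠 := by simp
    rw [h6] at h5
    exact absurd (h5.trans hE) (not_le.2 (hbu.trans_le uNum_le_continuum))

end H46.ST
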